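import Mathlib

set_option autoImplicit false

namespace Pool.Agent.P.MP_d7fca3_co

variable {ι : Type} [DecidableEq ι]

/-- An instance is a nonzero finitely supported `q`; its set of models is the support of `q`.
A method gives each instance a nonempty set of words in which every `i` occurs `q i` times. -/
def IsMethod (F : (ι →₀ ℕ) → Set (List ι)) : Prop :=
  ∀ q : ι →₀ ℕ, q ≠ 0 → (F q).Nonempty ∧ ∀ S ∈ F q, ∀ i, S.count i = q i

/-- The ideal position `(2 j - 1) Q / (2 q_i)` of the pair `(i, j)`. -/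
def idealPos (q : ι →₀ ℕ) (p : ι × ℕ) : ℚ :=
  (2 * (p.2 : ℚ) - 1) * (∑ i ∈ q.support, (q i : ℚ)) / (2 * (q p.1 : ℚ))

/-- The EIP method. -/
def EIP (q : ι →₀ ℕ) : Set (List ι) :=
  {S | ∃ L : List (ι × ℕ), L.Nodup ∧ (∀ p, p ∈ L ↔ 1 ≤ p.2 ∧ p.2 ≤ q p.1) ∧
    L.Pairwise (fun p p' => idealPos q p ≤ idealPos q p') ∧ S = L.map Prod.fst}

def IsPeriodic (F : (ι →₀ ℕ) → Set (List ι)) : Prop :=
  ∀ q : ι →₀ ℕ, q ≠ 0 → ∀ m : ℕ, 1 ≤ m → ∀ S ∈ F q, (List.replicate m S).flatten ∈ F (m • q)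

def IsUniform (F : (ι →₀ ℕ) → Set (List ι)) : Prop :=
  ∀ q : ι →₀ ℕ, q ≠ 0 → ∀ N : Finset ι, N.Nonempty → N ⊆ q.support → ∀ S ∈ F q,
    S.filter (· ∈ N) ∈ F (q.filter (· ∈ N)) ∧
    ∀ T ∈ F (q.filter (· ∈ N)), ∀ S' : List ι,
      List.Forall₂ (fun a b => if a ∈ N then b ∈ N else b = a) S S' →
      S'.filter (· ∈ N) = T → S' ∈ F q

/-- Reflectivity, required only of the instances whose `Q` ideal positions are all distinct. -/
def IsReflectiveOffTies (F : (ι →₀ ℕ) → Set (List ι)) : Prop :=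
  ∀ q : ι →₀ ℕ, q ≠ 0 → Set.InjOn (idealPos q) {p | 1 ≤ p.2 ∧ p.2 ≤ q p.1} →
    ∀ S ∈ F q, ∃ U W : List ι, S = U ++ W ++ U.reverse ∧ W.Nodup ∧ ∀ i, i ∈ W ↔ Odd (q i)

end Pool.Agent.P.MP_d7fca3_co
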