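import Pool.Agent.P.MP_d7fca3_co.Defs

set_option autoImplicit false

namespace Pool.Agent.P.MP_d7fca3_co

/-- power of a word -/
def pw {A : Type} (e : List A) (n : ℕ) : List A := (List.replicate n e).flatten

lemma pw_zero {A : Type} (e : List A) : pw e 0 = [] := by simp [pw]

lemma pw_succ {A : Type} (e : List A) (n : ℕ) : pw e (n + 1) = e ++ pw e n := by
  simp [pw, List.replicate_succ]

lemma pw_add {A : Type} (e : List A) (m n : ℕ) : pw e (m + n) = pw e m ++ pw e n := by
  simp only [pw, List.replicate_add, List.flatten_append]

lemma count_pw {A : Type} [DecidableEq A] (c : A) (e : List A) (n : ℕ) :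
    (pw e n).count c = n * e.count c := by
  induction n with
  | zero => simp [pw_zero]
  | succ n ih => rw [pw_succ, List.count_append, ih]; ring

lemma length_pw {A : Type} (e : List A) (n : ℕ) : (pw e n).length = n * e.length := by
  induction n with
  | zero => simp [pw_zero]
  | succ n ih => rw [pw_succ, List.length_append, ih]; ring

lemma split_unique {A : Type} [DecidableEq A] (z : A) (u v u' v' : List A)
    (h : u ++ z :: v = u' ++ z :: v') (hc : u.count z = u'.count z) : u = u' := by
  rcases List.append_eq_append_iff.mp h with ⟨a, h1, h2⟩ | ⟨a, h1, h2⟩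
  · rcases a with _ | ⟨b, a⟩
    · simpa using h1.symm
    · have hb : z = b := by simpa using congrArg List.head? h2
      subst hb
      rw [h1] at hc
      simp at hc
  · rcases a with _ | ⟨b, a⟩
    · simpa using h1
    · have hb : z = b := by simpa using congrArg List.head? h2
      subst hb
      rw [h1] at hc
      simp at hc

lemma exists_split {A : Type} [DecidableEq A] (z : A) (w : List A) (g : ℕ) (hg : g < w.count z) :
    ∃ u v, w = u ++ z :: v ∧ u.count z = g := by
  induction w generalizing g with
  | nil => simp at hg
  | cons a w ih =>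
    by_cases ha : a = z
    · subst ha
      rcases g with _ | g
      · exact ⟨[], w, rfl, rfl⟩
      · obtain ⟨u, v, h1, h2⟩ := ih g (by simpa using hg)
        exact ⟨a :: u, v, by rw [h1]; rfl, by simp [h2]⟩
    · obtain ⟨u, v, h1, h2⟩ := ih g (by simpa [List.count_cons, ha] using hg)
      exact ⟨a :: u, v, by rw [h1]; rfl, by simp [ha, h2]⟩

lemma filter_split {A : Type} (P : A → Bool) (S p r : List A) (y : A)
    (h : S.filter P = p ++ y :: r) :
    ∃ p' r', S = p' ++ y :: r' ∧ p'.filter P = p ∧ r'.filter P = r := by
  obtain ⟨l1, l2, rfl, h1, h2⟩ := List.filter_eq_append_iff.mp h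
  obtain ⟨l3, l4, rfl, h3, -, h5⟩ := List.filter_eq_cons_iff.mp h2
  refine ⟨l1 ++ l3, l4, by simp, ?_, h5⟩
  rw [List.filter_append, h1, List.filter_eq_nil_iff.mpr h3, List.append_nil]

lemma exists_rewrite {A : Type} [DecidableEq A] (N : Finset A) (S T : List A)
    (hl : (S.filter (· ∈ N)).length = T.length) (hT : ∀ a ∈ T, a ∈ N) :
    ∃ S', List.Forall₂ (fun a b => if a ∈ N then b ∈ N else b = a) S S' ∧
      S'.filter (· ∈ N) = T := by
  induction S generalizing T with
  | nil =>
    have : T = [] := List.length_eq_zero_iff.mp (by simpa using hl.symm)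
    exact ⟨[], List.Forall₂.nil, by simp [this]⟩
  | cons a S ih =>
    by_cases ha : a ∈ N
    · rcases T with _ | ⟨b, T⟩
      · simp [ha] at hl
      · obtain ⟨S', h1, h2⟩ := ih T (by simpa [ha] using hl)
          (fun c hc => hT c (List.mem_cons_of_mem _ hc))
        have hb : b ∈ N := hT b List.mem_cons_self
        exact ⟨b :: S', List.Forall₂.cons (by simp [ha, hb]) h1, by simp [hb, h2]⟩
    · obtain ⟨S', h1, h2⟩ := ih T (by simpa [ha] using hl) hT
      exact ⟨a :: S', List.Forall₂.cons (by simp [ha]) h1, by simp [ha, h2]⟩

lemma mask_eq {A : Type} [DecidableEq A] (N : Finset A) (S S' : List A)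
    (h : List.Forall₂ (fun a b => if a ∈ N then b ∈ N else b = a) S S') :
    S.map (fun a => decide (a ∈ N)) = S'.map (fun a => decide (a ∈ N)) := by
  induction h with
  | nil => rfl
  | @cons a b S S' hab _ ih =>
    simp only [List.map_cons, ih, List.cons.injEq, and_true]
    by_cases ha : a ∈ N
    · simp only [ha, if_true] at hab; simp [ha, hab]
    · simp only [ha, if_false] at hab; simp [hab]

lemma count_true_mask {A : Type} [DecidableEq A] (N : Finset A) (S : List A) :
    (S.map (fun a => decide (a ∈ N))).count true = (S.filter (· ∈ N)).length := by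
  induction S with
  | nil => rfl
  | cons a S ih => by_cases ha : a ∈ N <;> simp [ha, ih]

lemma rewrite_split {A : Type} [DecidableEq A] (N : Finset A) (S S' p' r' : List A) (y : A)
    (hy : y ∉ N) (h : List.Forall₂ (fun a b => if a ∈ N then b ∈ N else b = a) S S')
    (hS : S = p' ++ y :: r') :
    ∃ p r, S' = p ++ y :: r ∧ (p.filter (· ∈ N)).length = (p'.filter (· ∈ N)).length := by
  subst hS
  induction p' generalizing S' with
  | nil =>
    rcases h with _ | ⟨hab, h⟩
    simp only [hy, if_false] at hab
    subst hab
    exact ⟨[], _, rfl, rfl⟩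
  | cons a p' ih =>
    rcases h with _ | ⟨hab, h⟩
    rename_i b S''
    obtain ⟨p, r, rfl, h2⟩ := ih _ h
    refine ⟨b :: p, r, rfl, ?_⟩
    by_cases ha : a ∈ N
    · simp only [ha, if_true] at hab; simp [ha, hab, h2]
    · simp only [ha, if_false] at hab; simp [ha, hab, h2]

lemma prefix_len_le {A : Type} [DecidableEq A] (f : A) (π : List A) (a : ℕ) (u v : List A)
    (h : pw (f :: π) a = u ++ v) : u.length ≤ (π.length + 1) * u.count f := by
  induction a generalizing u with
  | zero =>
    rw [pw_zero] at h
    have : u = [] := (List.append_eq_nil_iff.mp h.symm).1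
    simp [this]
  | succ a ih =>
    rw [pw_succ] at h
    rcases List.append_eq_append_iff.mp h with ⟨c, h1, h2⟩ | ⟨c, h1, h2⟩
    · have := ih c h2
      rw [h1]
      simp only [List.length_append, List.length_cons, List.count_append, List.count_cons_self]
      nlinarith [Nat.zero_le ((π.length + 1) * π.count f)]
    · rcases u with _ | ⟨b, u⟩
      · simp
      · have hb : f = b := by simpa using congrArg List.head? h1
        subst hb
        have hl := congrArg List.length h1
        simp only [List.length_cons, List.length_append] at hl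
        simp only [List.length_cons, List.count_cons_self]
        nlinarith [Nat.zero_le ((π.length + 1) * u.count f)]

lemma length_eq_count_add {A : Type} [DecidableEq A] (x z : A) (hxz : x ≠ z) (u : List A)
    (h : ∀ a ∈ u, a = x ∨ a = z) : u.length = u.count x + u.count z := by
  induction u with
  | nil => rfl
  | cons a u ih =>
    have := ih (fun b hb => h b (List.mem_cons_of_mem _ hb))
    rcases h a List.mem_cons_self with rfl | rfl
    · simp [hxz, this]; omega
    · simp [hxz.symm, this]; omega

lemma count_le_of_split {A : Type} [DecidableEq A] (x z : A) (u v p s : List A)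
    (h : u ++ z :: v = p ++ s) (hc : u.count z < p.count z) : u.count x ≤ p.count x := by
  rcases List.append_eq_append_iff.mp h with ⟨c, h1, _⟩ | ⟨c, h1, _⟩
  · rw [h1]; simp
  · rw [h1] at hc; simp at hc

lemma count_ge_of_split {A : Type} [DecidableEq A] (x z : A) (u v p s : List A)
    (h : u ++ z :: v = p ++ s) (hc : p.count z ≤ u.count z) : p.count x ≤ u.count x := by
  rcases List.append_eq_append_iff.mp h with ⟨c, h1, h2⟩ | ⟨c, h1, _⟩
  · rcases c with _ | ⟨b, c⟩
    · rw [h1]; simp
    · have hb : z = b := by simpa using congrArg List.head? h2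
      subst hb
      rw [h1] at hc; simp at hc
  · rw [h1]; simp

lemma ref_word {A : Type} [DecidableEq A] (x z : A) (hxz : x ≠ z) (r a t : ℕ)
    (ht : t < (2 * r + 1) * a) (hr : t % (2 * r + 1) ≠ r) :
    ∃ u v, pw (List.replicate r z ++ [x] ++ List.replicate r z) a = u ++ z :: v ∧
      u.length = t ∧ 2 * u.count x * r ≤ u.count z + r ∧ u.count z ≤ (2 * u.count x + 1) * r := by
  set B := List.replicate r z ++ [x] ++ List.replicate r z with hB
  have hBx : B.count x = 1 := by simp [hB, List.count_replicate, hxz.symm]
  have hBz : B.count z = 2 * r := by simp [hB, hxz]; omega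
  have hBl : B.length = 2 * r + 1 := by simp [hB]; omega
  obtain ⟨j, s, hs, rfl⟩ : ∃ j s, s < 2 * r + 1 ∧ t = (2 * r + 1) * j + s :=
    ⟨t / (2 * r + 1), t % (2 * r + 1), Nat.mod_lt _ (by omega), (Nat.div_add_mod _ _).symm⟩
  have hsr : s ≠ r := by
    intro h
    apply hr
    rw [Nat.mul_add_mod, Nat.mod_eq_of_lt hs, h]
  have hj : j < a := by
    by_contra hcon
    have := Nat.mul_le_mul_left (2 * r + 1) (not_lt.mp hcon)
    omega
  obtain ⟨k, rfl⟩ := Nat.exists_eq_add_of_lt hj
  have hp : pw B (j + k + 1) = pw B j ++ (B ++ pw B k) := by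
    rw [Nat.add_assoc, pw_add, pw_succ]
  rcases lt_or_gt_of_ne hsr with h | h
  · obtain ⟨m, rfl⟩ := Nat.exists_eq_add_of_lt h
    refine ⟨pw B j ++ List.replicate s z,
      List.replicate m z ++ [x] ++ List.replicate (s + m + 1) z ++ pw B k, ?_, ?_, ?_, ?_⟩
    · rw [hp]
      have : List.replicate (s + m + 1) z = List.replicate s z ++ z :: List.replicate m z := by
        rw [show s + m + 1 = s + (m + 1) by ring, List.replicate_add, List.replicate_succ]
      have hB' : B = (List.replicate s z ++ z :: List.replicate m z) ++ [x] ++
          List.replicate (s + m + 1) z := by rw [← this]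
      conv_lhs => enter [2, 1]; rw [hB']
      simp only [List.append_assoc, List.cons_append]
    · rw [List.length_append, length_pw, hBl, List.length_replicate]; ring
    · simp only [List.count_append, count_pw, hBx, hBz, List.count_replicate]
      simp [hxz.symm]; nlinarith
    · simp only [List.count_append, count_pw, hBx, hBz, List.count_replicate]
      simp [hxz.symm]; nlinarith
  · obtain ⟨m, rfl⟩ := Nat.exists_eq_add_of_lt h
    obtain ⟨m', rfl⟩ := Nat.exists_eq_add_of_lt (show m < r by omega)
    refine ⟨pw B j ++ (List.replicate (m + m' + 1) z ++ [x] ++ List.replicate m z),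
      List.replicate m' z ++ pw B k, ?_, ?_, ?_, ?_⟩
    · rw [hp]
      have : List.replicate (m + m' + 1) z = List.replicate m z ++ z :: List.replicate m' z := by
        rw [show m + m' + 1 = m + (m' + 1) by ring, List.replicate_add, List.replicate_succ]
      have hB' : B = List.replicate (m + m' + 1) z ++ [x] ++
          (List.replicate m z ++ z :: List.replicate m' z) := by rw [← this]
      conv_lhs => enter [2, 1]; rw [hB']
      simp only [List.append_assoc, List.cons_append]
    · simp only [List.length_append, length_pw, hBl, List.length_replicate, List.length_singleton]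
      ring
    · simp only [List.count_append, count_pw, hBx, hBz, List.count_replicate]
      simp [hxz, hxz.symm]; nlinarith
    · simp only [List.count_append, count_pw, hBx, hBz, List.count_replicate]
      simp [hxz, hxz.symm]; nlinarith

end Pool.Agent.P.MP_d7fca3_co
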