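import Pool.Agent.P.MP_d7fca3_co.Rigid

set_option autoImplicit false
set_option linter.unusedSectionVars false

namespace Pool.Agent.P.MP_d7fca3_co

variable {ι : Type} [DecidableEq ι]

/-- label each letter with its occurrence number -/
def lab : List ι → List ι → List (ι × ℕ)
  | _, [] => []
  | p, y :: r => (y, p.count y + 1) :: lab (p ++ [y]) r

lemma map_fst_lab (p S : List ι) : (lab p S).map Prod.fst = S := by
  induction S generalizing p with
  | nil => rfl
  | cons y r ih => simp [lab, ih]

lemma mem_lab (p S : List ι) (c : ι × ℕ) :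
    c ∈ lab p S ↔ p.count c.1 < c.2 ∧ c.2 ≤ p.count c.1 + S.count c.1 := by
  induction S generalizing p with
  | nil => simp [lab]
  | cons y r ih =>
    obtain ⟨i, j⟩ := c
    simp only [lab, List.mem_cons, ih, Prod.mk.injEq, List.count_append, List.count_cons,
      List.count_nil, beq_iff_eq]
    by_cases h : y = i
    · subst h; simp; omega
    · simp [h, Ne.symm h]

lemma nodup_lab (p S : List ι) : (lab p S).Nodup := by
  induction S generalizing p with
  | nil => simp [lab]
  | cons y r ih =>
    simp only [lab, List.nodup_cons, ih, and_true, mem_lab]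
    simp

/-- Webster's rule -/
def Webster (q : ι →₀ ℕ) (S : List ι) : Prop :=
  ∀ (p s : List ι) (y : ι), S = p ++ y :: s → ∀ x,
    (2 * p.count y + 1) * q x ≤ (2 * p.count x + 1) * q y

lemma eip_of_webster {q : ι →₀ ℕ} (hq : q ≠ 0) {T : List ι} (hc : ∀ i, T.count i = q i)
    (hW : Webster q T) : T ∈ EIP q := by
  refine ⟨lab [] T, nodup_lab _ _, ?_, ?_, (map_fst_lab _ _).symm⟩
  · intro c
    rw [mem_lab, hc]
    simp only [List.count_nil, zero_add]
    rfl
  · have : ∀ (S p : List ι), T = p ++ S →
        (lab p S).Pairwise (fun c c' => idealPos q c ≤ idealPos q c') := by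
      intro S
      induction S with
      | nil => intro p _; simp [lab]
      | cons y r ih =>
        intro p e
        simp only [lab, List.pairwise_cons]
        refine ⟨?_, ih (p ++ [y]) (by rw [e]; simp)⟩
        rintro ⟨i, j⟩ hij
        rw [mem_lab] at hij
        simp only [List.count_append] at hij
        obtain ⟨k, rfl⟩ : ∃ k, j = k + 1 := ⟨j - 1, by omega⟩
        have hy : 0 < q y := by rw [← hc, e]; simp
        have hi : 0 < q i := by
          rw [← hc, e, List.count_append]
          have : r.count i ≤ (y :: r).count i := List.count_le_count_cons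
          omega
        rw [idealPos_le_iff q hq y i _ _ hy hi]
        refine (hW p r y e i).trans (Nat.mul_le_mul_right _ (by omega))
    exact this T [] rfl

lemma exists_word (q : ι →₀ ℕ) : ∃ S : List ι, ∀ i, S.count i = q i := by
  refine ⟨(Finsupp.toMultiset q).toList, fun i => ?_⟩
  rw [← Multiset.coe_count, Multiset.coe_toList, Finsupp.count_toMultiset]

lemma count_of_eip {q : ι →₀ ℕ} {S : List ι} (hS : S ∈ EIP q) (i : ι) : S.count i = q i := by
  obtain ⟨L, h1, h2, -, rfl⟩ := hS
  obtain ⟨S0, hS0⟩ := exists_word q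
  have hp : L.Perm (lab [] S0) := by
    rw [List.perm_ext_iff_of_nodup h1 (nodup_lab _ _)]
    intro c
    rw [h2, mem_lab, hS0]
    simp only [List.count_nil, zero_add]
    rfl
  rw [(hp.map Prod.fst).count_eq, map_fst_lab, hS0]

lemma eip_nonempty (q : ι →₀ ℕ) : (EIP q).Nonempty := by
  obtain ⟨S0, hS0⟩ := exists_word q
  set L := (lab [] S0).mergeSort (fun c c' => decide (idealPos q c ≤ idealPos q c')) with hL
  have hp : L.Perm (lab [] S0) := List.mergeSort_perm _ _
  refine ⟨L.map Prod.fst, L, hp.nodup_iff.mpr (nodup_lab _ _), ?_, ?_, rfl⟩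
  · intro c
    rw [hp.mem_iff, mem_lab, hS0]
    simp only [List.count_nil, zero_add]
    rfl
  · have := List.pairwise_mergeSort (le := fun c c' => decide (idealPos q c ≤ idealPos q c'))
      (by intro a b c; simp only [decide_eq_true_eq]; exact le_trans)
      (by intro a b; simp only [Bool.or_eq_true, decide_eq_true_eq]; exact le_total _ _)
      (lab [] S0)
    exact this.imp (by simp)

lemma count_card (P : List (ι × ℕ)) (hP : P.Nodup) (x : ι) :
    ∃ A : Finset ℕ, A.card = (P.map Prod.fst).count x ∧ ∀ k, k ∈ A ↔ (x, k) ∈ P := by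
  induction P with
  | nil => exact ⟨∅, rfl, by simp⟩
  | cons c P ih =>
    obtain ⟨hc, hP⟩ := List.nodup_cons.mp hP
    obtain ⟨A, h1, h2⟩ := ih hP
    obtain ⟨i, j⟩ := c
    by_cases hi : i = x
    · subst hi
      refine ⟨insert j A, ?_, ?_⟩
      · rw [Finset.card_insert_of_notMem (fun h => hc ((h2 j).mp h)), h1]; simp
      · intro k; simp [h2]
    · refine ⟨A, by simp [hi, h1], ?_⟩
      intro k; simp [h2, Ne.symm hi]

lemma webster_of_eip {q : ι →₀ ℕ} (hq : q ≠ 0) {S : List ι} (hS : S ∈ EIP q) : Webster q S := by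
  obtain ⟨L, h1, h2, h3, rfl⟩ := hS
  intro p s y e x
  obtain ⟨P, R', rfl, hP, hR'⟩ := List.map_eq_append_iff.mp e
  obtain ⟨⟨y', j⟩, R, rfl, hy, hR⟩ := List.map_eq_cons_iff.mp hR'
  simp only at hy
  subst hy
  subst hP
  have hj := (h2 (y', j)).mp (by simp)
  simp only at hj
  obtain ⟨j, rfl⟩ : ∃ k, j = k + 1 := ⟨j - 1, by omega⟩
  have hyq : 0 < q y' := by omega
  rw [List.nodup_append] at h1
  rw [List.pairwise_append, List.pairwise_cons] at h3
  obtain ⟨A, hA1, hA2⟩ := count_card P h1.1 y'
  have c1 : (P.map Prod.fst).count y' ≤ j := by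
    rw [← hA1]
    have : A ⊆ Finset.Icc 1 j := by
      intro k hk
      have hk' := (hA2 k).mp hk
      have hv := (h2 (y', k)).mp (by simp [hk'])
      simp only at hv
      obtain ⟨k, rfl⟩ : ∃ k', k = k' + 1 := ⟨k - 1, by omega⟩
      have := (idealPos_le_iff q hq y' y' k j hyq hyq).mp (h3.2.2 _ hk' _ (by simp))
      have hle := Nat.le_of_mul_le_mul_right this hyq
      have hne : k ≠ j := by
        rintro rfl
        exact h1.2.2 _ hk' _ (by simp) rfl
      rw [Finset.mem_Icc]; omega
    simpa using Finset.card_le_card this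
  by_cases hx : (P.map Prod.fst).count x < q x
  · obtain ⟨B, hB1, hB2⟩ := count_card P h1.1 x
    have : ¬ Finset.Icc 1 ((P.map Prod.fst).count x + 1) ⊆ B := by
      intro h
      have := Finset.card_le_card h
      simp at this
      omega
    obtain ⟨k, hk1, hk2⟩ := Finset.not_subset.mp this
    rw [Finset.mem_Icc] at hk1
    obtain ⟨k, rfl⟩ : ∃ k', k = k' + 1 := ⟨k - 1, by omega⟩
    have hm := (h2 (x, k + 1)).mpr ⟨by simp, by simp only; omega⟩
    rw [hB2] at hk2
    have hle : idealPos q (y', j + 1) ≤ idealPos q (x, k + 1) := by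
      rcases List.mem_append.mp hm with h | h
      · exact absurd h hk2
      · rcases List.mem_cons.mp h with h | h
        · rw [h]
        · exact h3.2.1.1 _ h
    have := (idealPos_le_iff q hq y' x j k hyq (by omega)).mp hle
    calc _ ≤ (2 * j + 1) * q x := Nat.mul_le_mul_right _ (by omega)
      _ ≤ (2 * k + 1) * q y' := this
      _ ≤ _ := Nat.mul_le_mul_right _ (by omega)
  · calc _ ≤ (2 * q y') * q x := Nat.mul_le_mul_right _ (by omega)
      _ = (2 * q x) * q y' := by ring
      _ ≤ _ := Nat.mul_le_mul_right _ (by omega)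

lemma pw_split {A : Type} (S : List A) (m : ℕ) (p s : List A) (y : A)
    (h : pw S m = p ++ y :: s) : ∃ t p' s', p = pw S t ++ p' ∧ S = p' ++ y :: s' := by
  induction m generalizing p with
  | zero => simp [pw_zero] at h
  | succ m ih =>
    rw [pw_succ] at h
    rcases List.append_eq_append_iff.mp h with ⟨c, h1, h2⟩ | ⟨c, h1, h2⟩
    · obtain ⟨t, p', s', e1, e2⟩ := ih c h2
      exact ⟨t + 1, p', s', by rw [h1, e1, pw_succ, List.append_assoc], e2⟩
    · rcases c with _ | ⟨b, c⟩
      · obtain ⟨t, p', s', e1, e2⟩ := ih [] (by simpa using h2.symm)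
        refine ⟨t + 1, p', s', ?_, e2⟩
        rw [pw_succ, List.append_assoc, ← e1, h1]; simp
      · have hb : y = b := by simpa using congrArg List.head? h2
        subst hb
        exact ⟨0, p, c, by simp [pw_zero], h1⟩

theorem eip_isMethod : IsMethod (EIP (ι := ι)) :=
  fun q _ => ⟨eip_nonempty q, fun _ hS i => count_of_eip hS i⟩

theorem eip_isPeriodic : IsPeriodic (EIP (ι := ι)) := by
  intro q hq m hm S hS
  have hc := count_of_eip hS
  have hW := webster_of_eip hq hS
  have hq' : m • q ≠ 0 := smul_ne_zero (by omega) hq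
  apply eip_of_webster hq'
  · intro i
    change (pw S m).count i = _
    rw [count_pw, hc]; simp
  · intro p s y e x
    obtain ⟨t, p', s', rfl, e2⟩ := pw_split S m p s y e
    have := hW p' s' y e2 x
    simp only [List.count_append, count_pw, hc, Finsupp.coe_smul, Pi.smul_apply, smul_eq_mul]
    nlinarith [Nat.mul_le_mul_left m this]

/-- normalised ideal position -/
def key (q : ι →₀ ℕ) (c : ι × ℕ) : ℚ := (2 * (c.2 : ℚ) - 1) / (q c.1 : ℚ)

lemma idealPos_le_key (q : ι →₀ ℕ) (hq : q ≠ 0) (c c' : ι × ℕ) :
    idealPos q c ≤ idealPos q c' ↔ key q c ≤ key q c' := by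
  have hQ := total_pos q hq
  have e : ∀ c, idealPos q c = key q c * ((∑ i ∈ q.support, (q i : ℚ)) / 2) := by
    intro c; simp only [idealPos, key]; ring
  rw [e, e, mul_le_mul_iff_left₀ (by positivity)]

lemma rewrite_labels (f : ι × ℕ → ℚ) (N : Finset ι) (L LT : List (ι × ℕ)) (S' : List ι)
    (h1 : List.Forall₂ (fun a b => if a ∈ N then b ∈ N else b = a) (L.map Prod.fst) S')
    (h2 : S'.filter (· ∈ N) = LT.map Prod.fst)
    (h3 : (L.filter (fun c => c.1 ∈ N)).map f = LT.map f) :
    ∃ L' : List (ι × ℕ), L'.map Prod.fst = S' ∧ L'.map f = L.map f ∧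
      L'.Perm (LT ++ L.filter (fun c => c.1 ∉ N)) := by
  induction L generalizing LT S' with
  | nil =>
    rcases h1 with _ | _
    have : LT = [] := by simpa using h3.symm
    exact ⟨[], rfl, rfl, by simp [this]⟩
  | cons a L ih =>
    rcases h1 with _ | ⟨hab, h1⟩
    rename_i b S0
    by_cases ha : a.1 ∈ N
    · simp only [ha, if_true] at hab
      rcases LT with _ | ⟨c, LT⟩
      · simp [ha] at h3
      · simp only [List.filter_cons, hab, ha, decide_true, if_true, List.map_cons,
          List.cons.injEq] at h2 h3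
        obtain ⟨L', e1, e2, e3⟩ := ih LT S0 h1 h2.2 h3.2
        refine ⟨c :: L', by simp [e1, h2.1], by simp [e2, h3.1], ?_⟩
        simpa [ha] using e3
    · simp only [ha, if_false] at hab
      subst hab
      simp only [List.filter_cons, ha, decide_false] at h2 h3
      obtain ⟨L', e1, e2, e3⟩ := ih LT S0 h1 (by simpa using h2) (by simpa using h3)
      refine ⟨a :: L', by simp [e1], by simp [e2], ?_⟩
      simp only [List.filter_cons, ha, not_false_eq_true, decide_true, if_true]
      exact (e3.cons a).trans List.perm_middle.symm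

theorem eip_isUniform : IsUniform (EIP (ι := ι)) := by
  intro q hq N hN hNq S hS
  have hq' : q.filter (· ∈ N) ≠ 0 := by
    obtain ⟨i, hi⟩ := hN
    intro h
    have := DFunLike.congr_fun h i
    rw [Finsupp.filter_apply_pos _ _ hi] at this
    exact Finsupp.mem_support_iff.mp (hNq hi) this
  refine ⟨?_, ?_⟩
  · have hc := count_of_eip hS
    have hW := webster_of_eip hq hS
    apply eip_of_webster hq'
    · intro i
      by_cases hi : i ∈ N
      · rw [List.count_filter (by simp [hi]), hc, Finsupp.filter_apply_pos _ _ hi]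
      · rw [List.count_eq_zero_of_not_mem (by simp [hi]), Finsupp.filter_apply_neg _ _ hi]
    · intro p s y e x
      have hy : y ∈ N := by
        have : y ∈ S.filter (· ∈ N) := by rw [e]; simp
        simpa using (List.mem_filter.mp this).2
      obtain ⟨p', s', e1, rfl, -⟩ := filter_split _ S p s y e
      by_cases hx : x ∈ N
      · rw [List.count_filter (by simp [hy]), List.count_filter (by simp [hx]),
          Finsupp.filter_apply_pos _ _ hx, Finsupp.filter_apply_pos _ _ hy]
        exact hW p' s' y e1 x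
      · rw [Finsupp.filter_apply_neg _ _ hx]; simp
  · rintro T ⟨LT, t1, t2, t3, rfl⟩ S' hF hfilt
    obtain ⟨L, h1, h2, h3, rfl⟩ := hS
    have hLT : ∀ c ∈ LT, c.1 ∈ N := by
      intro c hc
      have := (t2 c).mp hc
      by_contra hn
      rw [Finsupp.filter_apply_neg _ _ hn] at this
      omega
    have hperm : (L.filter (fun c => c.1 ∈ N)).Perm LT := by
      rw [List.perm_ext_iff_of_nodup (h1.filter _) t1]
      intro c
      rw [List.mem_filter, h2, t2]
      by_cases hn : c.1 ∈ N
      · simp [hn]
      · rw [Finsupp.filter_apply_neg _ _ hn]; simp [hn]; omega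
    have s1 : (L.map (key q)).Pairwise (· ≤ ·) := by
      rw [List.pairwise_map]
      exact h3.imp (fun h => (idealPos_le_key q hq _ _).mp h)
    have s2 : (LT.map (key q)).Pairwise (· ≤ ·) := by
      rw [List.pairwise_map]
      refine List.Pairwise.imp_of_mem ?_ t3
      intro a b ha hb h
      have := (idealPos_le_key _ hq' _ _).mp h
      simp only [key] at this ⊢
      rwa [Finsupp.filter_apply_pos _ _ (hLT a ha), Finsupp.filter_apply_pos _ _ (hLT b hb)]
        at this
    have s3 : ((L.filter (fun c => c.1 ∈ N)).map (key q)).Pairwise (· ≤ ·) :=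
      s1.sublist (List.filter_sublist.map _)
    obtain ⟨L', e1, e2, e3⟩ := rewrite_labels (key q) N L LT S' hF hfilt
      (List.Perm.eq_of_pairwise' s3 s2 (hperm.map _))
    have hp : L'.Perm L := by
      refine e3.trans ((hperm.symm.append_right _).trans ?_)
      have := List.filter_append_perm (fun c : ι × ℕ => decide (c.1 ∈ N)) L
      simpa using this
    refine ⟨L', hp.nodup_iff.mpr h1, fun c => by rw [hp.mem_iff, h2], ?_, e1.symm⟩
    rw [← e2, List.pairwise_map] at s1
    exact s1.imp (fun h => (idealPos_le_key q hq _ _).mpr h)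

lemma pal_form {A : Type} (S : List A) (h : S.reverse = S) :
    ∃ U W : List A, S = U ++ W ++ U.reverse ∧ W.length ≤ 1 := by
  have := List.Palindrome.of_reverse_eq h
  clear h
  induction this with
  | nil => exact ⟨[], [], rfl, by simp⟩
  | singleton x => exact ⟨[], [x], rfl, by simp⟩
  | cons_concat x _ ih =>
    obtain ⟨U, W, rfl, h⟩ := ih
    exact ⟨x :: U, W, by simp, h⟩

theorem eip_isReflective : IsReflectiveOffTies (EIP (ι := ι)) := by
  intro q hq hinj S hS
  have hc := count_of_eip hS
  obtain ⟨L, h1, h2, h3, rfl⟩ := hS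
  set m : ι × ℕ → ι × ℕ := fun c => (c.1, q c.1 + 1 - c.2) with hm
  have hmm : ∀ c ∈ L, m (m c) = c := by
    intro c hc
    have := (h2 c).mp hc
    ext
    · rfl
    · simp only [hm]; omega
  have hmL : ∀ c ∈ L, m c ∈ L := by
    intro c hc
    have := (h2 c).mp hc
    rw [h2]; simp only [hm]; omega
  have hkey : ∀ c ∈ L, key q (m c) = 2 - key q c := by
    intro c hc
    have := (h2 c).mp hc
    have hpos : (q c.1 : ℚ) ≠ 0 := by
      have : q c.1 ≠ 0 := by omega
      exact_mod_cast this
    simp only [key, hm]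
    rw [Nat.cast_sub (by omega)]
    push_cast
    field_simp
    ring
  have hnd : ((L.map m).reverse).Nodup := by
    rw [List.nodup_reverse]
    refine List.Nodup.map_on ?_ h1
    intro a ha b hb hab
    rw [← hmm a ha, hab, hmm b hb]
  have hperm : L.Perm (L.map m).reverse := by
    rw [List.perm_ext_iff_of_nodup h1 hnd]
    intro c
    rw [List.mem_reverse, List.mem_map]
    constructor
    · intro hc; exact ⟨m c, hmL c hc, hmm c hc⟩
    · rintro ⟨a, ha, rfl⟩; exact hmL a ha
  have hpw : ((L.map m).reverse).Pairwise (fun c c' => idealPos q c ≤ idealPos q c') := by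
    rw [List.pairwise_reverse, List.pairwise_map]
    refine List.Pairwise.imp_of_mem ?_ h3
    intro a b ha hb h
    rw [idealPos_le_key q hq] at h ⊢
    rw [hkey a ha, hkey b hb]
    linarith
  have heq : L = (L.map m).reverse := by
    refine List.Perm.eq_of_pairwise ?_ h3 hpw hperm
    intro a b ha hb hab hba
    exact hinj ((h2 a).mp ha) ((h2 b).mp (hperm.mem_iff.mpr hb)) (le_antisymm hab hba)
  have hpal : (L.map Prod.fst).reverse = L.map Prod.fst := by
    conv_rhs => rw [heq]
    rw [List.map_reverse, List.map_map]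
    rfl
  obtain ⟨U, W, e, hW⟩ := pal_form _ hpal
  refine ⟨U, W, e, ?_, ?_⟩
  · rcases W with _ | ⟨a, _ | ⟨b, W⟩⟩
    · simp
    · simp
    · simp at hW
  · intro i
    rw [← hc i, e]
    simp only [List.count_append, List.count_reverse]
    have hle : W.count i ≤ 1 := List.count_le_length.trans hW
    rw [← List.count_pos_iff, Nat.odd_iff]
    omega

theorem main (ι : Type) [Infinite ι] [DecidableEq ι] :
    (IsMethod (EIP (ι := ι)) ∧ IsPeriodic (EIP (ι := ι)) ∧ IsUniform (EIP (ι := ι)) ∧
      IsReflectiveOffTies (EIP (ι := ι))) ∧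
    ∀ F : (ι →₀ ℕ) → Set (List ι),
      IsMethod F → IsPeriodic F → IsUniform F → IsReflectiveOffTies F →
      ∀ q : ι →₀ ℕ, q ≠ 0 → F q ⊆ EIP q :=
  ⟨⟨eip_isMethod, eip_isPeriodic, eip_isUniform, eip_isReflective⟩,
    fun _ hM hP hU hR q hq _ hT => eip_of_webster hq ((hM q hq).2 _ hT)
      (fun p s y e x => webster_of_mem hM hP hU hR hq hT p s y e x)⟩

end Pool.Agent.P.MP_d7fca3_co
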