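import Pool.Agent.P.MP_d7fca3_co.Lists

set_option autoImplicit false
set_option linter.unusedSectionVars false

namespace Pool.Agent.P.MP_d7fca3_co

variable {ι : Type} [DecidableEq ι]

/-- two-model instance -/
noncomputable def two (x z : ι) (a d : ℕ) : ι →₀ ℕ := Finsupp.single x a + Finsupp.single z d

lemma two_left (x z : ι) (hxz : x ≠ z) (a d : ℕ) : two x z a d x = a := by
  simp [two, hxz]

lemma two_right (x z : ι) (hxz : x ≠ z) (a d : ℕ) : two x z a d z = d := by
  simp [two, hxz.symm]

lemma two_other (x z y : ι) (hx : y ≠ x) (hz : y ≠ z) (a d : ℕ) : two x z a d y = 0 := by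
  simp [two, hx, hz]

lemma two_ne_zero (x z : ι) (hxz : x ≠ z) (a d : ℕ) (ha : 0 < a) : two x z a d ≠ 0 := by
  intro h
  have := two_left x z hxz a d
  rw [h] at this
  simp at this
  omega

lemma filter_pair (q : ι →₀ ℕ) (x z : ι) (hxz : x ≠ z) :
    q.filter (· ∈ ({x, z} : Finset ι)) = two x z (q x) (q z) := by
  ext y
  rw [Finsupp.filter_apply]
  by_cases hx : y = x
  · subst hx; simp [two_left _ _ hxz]
  · by_cases hz : y = z
    · subst hz; simp [two_right _ _ hxz]
    · simp [hx, hz, two_other _ _ _ hx hz]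

lemma total_pos (q : ι →₀ ℕ) (hq : q ≠ 0) : (0 : ℚ) < ∑ i ∈ q.support, (q i : ℚ) := by
  apply Finset.sum_pos
  · intro i hi
    exact_mod_cast Nat.pos_of_ne_zero (Finsupp.mem_support_iff.mp hi)
  · exact Finsupp.support_nonempty_iff.mpr hq

lemma idealPos_le_iff (q : ι →₀ ℕ) (hq : q ≠ 0) (x y : ι) (j k : ℕ) (hx : 0 < q x) (hy : 0 < q y) :
    idealPos q (x, j + 1) ≤ idealPos q (y, k + 1) ↔ (2 * j + 1) * q y ≤ (2 * k + 1) * q x := by
  have hQ := total_pos q hq
  have hx' : (0 : ℚ) < q x := by exact_mod_cast hx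
  have hy' : (0 : ℚ) < q y := by exact_mod_cast hy
  simp only [idealPos]
  rw [div_le_div_iff₀ (by positivity) (by positivity)]
  set Q := ∑ i ∈ q.support, (q i : ℚ)
  have : ((2 * j + 1) * q y ≤ (2 * k + 1) * q x) ↔
      ((2 * (j : ℚ) + 1) * q y ≤ (2 * k + 1) * q x) := by norm_cast
  rw [this]
  push_cast
  constructor
  · intro h
    by_contra hc
    push Not at hc
    nlinarith [mul_pos hQ (sub_pos.mpr hc)]
  · intro h
    nlinarith [mul_nonneg hQ.le (sub_nonneg.mpr h)]

lemma two_injOn (x z : ι) (hxz : x ≠ z) (a r : ℕ) (ha : 0 < a) :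
    Set.InjOn (idealPos (two x z a (2 * r * a)))
      {p | 1 ≤ p.2 ∧ p.2 ≤ two x z a (2 * r * a) p.1} := by
  rintro ⟨i, j⟩ ⟨hj1, hj2⟩ ⟨i', j'⟩ ⟨hk1, hk2⟩ h
  simp only at hj1 hj2 hk1 hk2
  obtain ⟨j, rfl⟩ : ∃ j0, j = j0 + 1 := ⟨j - 1, by omega⟩
  obtain ⟨j', rfl⟩ : ∃ j0, j' = j0 + 1 := ⟨j' - 1, by omega⟩
  have hq := two_ne_zero x z hxz a (2 * r * a) ha
  have h1 := (idealPos_le_iff _ hq i i' j j' (by omega) (by omega)).mp h.le
  have h2 := (idealPos_le_iff _ hq i' i j' j (by omega) (by omega)).mp h.ge
  have he := le_antisymm h1 h2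
  have hi : i = x ∨ i = z := by
    by_contra hc
    push Not at hc
    rw [two_other _ _ _ hc.1 hc.2] at hj2
    omega
  have hi' : i' = x ∨ i' = z := by
    by_contra hc
    push Not at hc
    rw [two_other _ _ _ hc.1 hc.2] at hk2
    omega
  rcases hi with rfl | rfl <;> rcases hi' with rfl | rfl
  · have := Nat.eq_of_mul_eq_mul_right (by omega) he
    have : j = j' := by omega
    rw [this]
  · rw [two_left _ _ hxz, two_right _ _ hxz] at he
    have : (2 * j + 1) * (2 * r) = 2 * j' + 1 :=
      Nat.eq_of_mul_eq_mul_right ha (by rw [← he]; ring)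
    have h3 : 2 * ((2 * j + 1) * r) = 2 * j' + 1 := by rw [← this]; ring
    omega
  · rw [two_left _ _ hxz, two_right _ _ hxz] at he
    have : (2 * j' + 1) * (2 * r) = 2 * j + 1 :=
      Nat.eq_of_mul_eq_mul_right ha (by rw [he]; ring)
    have h3 : 2 * ((2 * j' + 1) * r) = 2 * j + 1 := by rw [← this]; ring
    omega
  · have := Nat.eq_of_mul_eq_mul_right (by omega) he
    have : j = j' := by omega
    rw [this]

section
variable {F : (ι →₀ ℕ) → Set (List ι)}

lemma mem_support_of_mem (hM : IsMethod F) {q : ι →₀ ℕ} (hq : q ≠ 0) {S : List ι} (hS : S ∈ F q)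
    {a : ι} (ha : a ∈ S) : a ∈ q.support := by
  rw [Finsupp.mem_support_iff, ← (hM q hq).2 S hS a]
  exact (List.count_pos_iff.mpr ha).ne'

lemma mem_two (hM : IsMethod F) {x z : ι} (hxz : x ≠ z) {a d : ℕ} (ha : 0 < a) {S : List ι}
    (hS : S ∈ F (two x z a d)) {b : ι} (hb : b ∈ S) : b = x ∨ b = z := by
  have := mem_support_of_mem hM (two_ne_zero x z hxz a d ha) hS hb
  by_contra hc
  push Not at hc
  rw [Finsupp.mem_support_iff, two_other _ _ _ hc.1 hc.2] at this
  exact this rfl

lemma exists_rewrite_mem (hM : IsMethod F) (hU : IsUniform F) {q : ι →₀ ℕ} (hq : q ≠ 0)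
    (N : Finset ι) (hN : N.Nonempty) (hNq : N ⊆ q.support) {S : List ι} (hS : S ∈ F q)
    {T : List ι} (hT : T ∈ F (q.filter (· ∈ N))) :
    ∃ S' ∈ F q, List.Forall₂ (fun a b => if a ∈ N then b ∈ N else b = a) S S' ∧
      S'.filter (· ∈ N) = T := by
  have hq' : q.filter (· ∈ N) ≠ 0 := by
    obtain ⟨i, hi⟩ := hN
    intro h
    have := DFunLike.congr_fun h i
    rw [Finsupp.filter_apply_pos _ _ hi] at this
    exact Finsupp.mem_support_iff.mp (hNq hi) this
  obtain ⟨h1, h2⟩ := hU q hq N hN hNq S hS
  have hp : (S.filter (· ∈ N)).Perm T := by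
    rw [List.perm_iff_count]
    intro i
    rw [(hM _ hq').2 _ h1 i, (hM _ hq').2 _ hT i]
  obtain ⟨S', h3, h4⟩ := exists_rewrite N S T hp.length_eq (fun a ha => by
    have := mem_support_of_mem hM hq' hT ha
    rw [Finsupp.support_filter] at this
    exact (Finset.mem_filter.mp this).2)
  exact ⟨S', h2 T hT S' h3 h4, h3, h4⟩

lemma two_form (hR : IsReflectiveOffTies F) {x z : ι} (hxz : x ≠ z) {a r : ℕ} (ha : 0 < a)
    {S : List ι} (hS : S ∈ F (two x z a (2 * r * a))) :
    ∃ U W : List ι, S = U ++ W ++ U.reverse ∧ (W = [] ∨ W = [x]) := by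
  obtain ⟨U, W, h1, h2, h3⟩ := hR _ (two_ne_zero x z hxz a _ ha) (two_injOn x z hxz a r ha) S hS
  refine ⟨U, W, h1, ?_⟩
  have hW : ∀ i ∈ W, i = x := by
    intro i hi
    have ho := (h3 i).mp hi
    by_contra hx
    by_cases hz : i = z
    · subst hz
      rw [two_right _ _ hxz] at ho
      obtain ⟨k, hk⟩ := ho
      have : 2 * (r * a) = 2 * k + 1 := by rw [← hk]; ring
      omega
    · rw [two_other _ _ _ hx hz] at ho
      simp at ho
  rcases W with _ | ⟨b, _ | ⟨c, W⟩⟩
  · exact Or.inl rfl
  · right; rw [hW b List.mem_cons_self]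
  · have hb := hW b (by simp)
    have hc := hW c (by simp)
    simp [hb, hc] at h2

lemma two_pal (hR : IsReflectiveOffTies F) {x z : ι} (hxz : x ≠ z) {a r : ℕ} (ha : 0 < a)
    {S : List ι} (hS : S ∈ F (two x z a (2 * r * a))) : S.reverse = S := by
  obtain ⟨U, W, rfl, h | h⟩ := two_form hR hxz ha hS <;> subst h <;> simp

lemma ref_mem (hM : IsMethod F) (hP : IsPeriodic F) (hR : IsReflectiveOffTies F) {x z : ι}
    (hxz : x ≠ z) {a : ℕ} (r : ℕ) (ha : 0 < a) :
    pw (List.replicate r z ++ [x] ++ List.replicate r z) a ∈ F (two x z a (2 * r * a)) := by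
  have hq := two_ne_zero x z hxz 1 (2 * r * 1) one_pos
  obtain ⟨S, hS⟩ := (hM _ hq).1
  obtain ⟨U, W, h1, h2⟩ := two_form hR hxz one_pos hS
  have hx := (hM _ hq).2 S hS x
  have hz := (hM _ hq).2 S hS z
  rw [two_left _ _ hxz] at hx
  rw [two_right _ _ hxz] at hz
  have hmem : ∀ b ∈ U, b = x ∨ b = z := fun b hb =>
    mem_two hM hxz one_pos hS (by rw [h1]; simp [hb])
  rw [h1] at hx hz
  simp only [List.count_append, List.count_reverse] at hx hz
  have hW : W = [x] := by
    rcases h2 with h | h
    · subst h; simp at hx; omega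
    · exact h
  subst hW
  have hUx : U.count x = 0 := by simp at hx; omega
  have hUz : U.count z = r := by simp [hxz] at hz; omega
  have hU : U = List.replicate r z := by
    rw [List.eq_replicate_iff]
    refine ⟨by rw [length_eq_count_add x z hxz U hmem]; omega, ?_⟩
    intro b hb
    rcases hmem b hb with rfl | rfl
    · exact absurd hb (List.count_eq_zero.mp hUx)
    · rfl
  have := hP _ hq a ha S hS
  rw [h1, hU, List.reverse_replicate] at this
  have e : two x z a (2 * r * a) = a • two x z 1 (2 * r * 1) := by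
    ext i
    simp only [two, Finsupp.coe_smul, Finsupp.coe_add, Pi.smul_apply, Pi.add_apply,
      Finsupp.single_apply, smul_eq_mul]
    split_ifs <;> ring
  rw [e]
  exact this

/-- `C` is a set of models of demand `a`, and `z` has demand `d`. -/
noncomputable def clones (C : Finset ι) (z : ι) (a d : ℕ) : ι →₀ ℕ :=
  a • Finsupp.indicator C (fun _ _ => 1) + Finsupp.single z d

lemma clones_mem (C : Finset ι) (z : ι) (hz : z ∉ C) (a d : ℕ) (c : ι) (hc : c ∈ C) :
    clones C z a d c = a := by
  have : c ≠ z := fun h => hz (h ▸ hc)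
  simp [clones, Finsupp.indicator_apply, hc, this]

lemma clones_z (C : Finset ι) (z : ι) (hz : z ∉ C) (a d : ℕ) : clones C z a d z = d := by
  simp [clones, Finsupp.indicator_apply, hz]

lemma clones_other (C : Finset ι) (z : ι) (a d : ℕ) (c : ι) (hc : c ∉ C) (hcz : c ≠ z) :
    clones C z a d c = 0 := by
  simp [clones, Finsupp.indicator_apply, hc, hcz]

lemma clones_dvd (hM : IsMethod F) (hP : IsPeriodic F) (hU : IsUniform F)
    (hR : IsReflectiveOffTies F) (C : Finset ι) (hC : C.Nonempty) (z : ι) (hz : z ∉ C)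
    {a r : ℕ} (ha : 0 < a) (hr : 0 < r) {S : List ι} (hS : S ∈ F (clones C z a (2 * r * a)))
    (p s : List ι) (hp : S = p ++ z :: s) : C.card ∣ (p.filter (· ∈ C)).length := by
  set q := clones C z a (2 * r * a) with hqdef
  obtain ⟨c0, hc0⟩ := hC
  have hq : q ≠ 0 := by
    intro h
    have := clones_mem C z hz a (2 * r * a) c0 hc0
    rw [← hqdef, h] at this
    simp at this; omega
  have hCq : C ⊆ q.support := by
    intro c hc
    rw [Finsupp.mem_support_iff, clones_mem C z hz a _ c hc]; omega
  set one : ι →₀ ℕ := Finsupp.indicator C (fun _ _ => 1) with hone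
  have hone_ap : ∀ i, one i = if i ∈ C then 1 else 0 := by
    intro i; simp [hone, Finsupp.indicator_apply]
  have h1 : one ≠ 0 := by
    intro h
    have := hone_ap c0
    rw [h] at this
    simp [hc0] at this
  obtain ⟨π, hπ⟩ := (hM _ h1).1
  have hπc := (hM _ h1).2 π hπ
  have hπa := hP _ h1 a ha π hπ
  have hfil : q.filter (· ∈ C) = a • one := by
    ext i
    rw [Finsupp.filter_apply]
    by_cases hi : i ∈ C
    · simp [hi, hone_ap, hqdef, clones_mem C z hz a _ i hi]
    · simp [hi, hone_ap]
  rw [← hfil] at hπa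
  obtain ⟨S', hS', hF, hfilt⟩ := exists_rewrite_mem hM hU hq C ⟨c0, hc0⟩ hCq hS hπa
  obtain ⟨p', s', hp', hlen⟩ := rewrite_split C S S' p s z hz hF hp
  rw [← hlen]
  have hπlen : π.length = C.card := by
    have hperm : π.Perm C.toList := by
      rw [List.perm_iff_count]
      intro i
      rw [hπc i, hone_ap]
      by_cases hi : i ∈ C
      · rw [if_pos hi, List.count_eq_one_of_mem C.nodup_toList (Finset.mem_toList.mpr hi)]
      · rw [if_neg hi, List.count_eq_zero_of_not_mem (fun h => hi (Finset.mem_toList.mp h))]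
    rw [hperm.length_eq, Finset.length_toList]
  -- the mirrored letter z
  have hcz := (hM _ hq).2 S' hS' z
  have hcz' : p'.count z + s'.count z + 1 = S'.count z := by rw [hp']; simp; omega
  obtain ⟨p'', s'', hp'', hcnt⟩ := exists_split z S' (s'.count z) (by omega)
  have hcz'' : p''.count z + s''.count z + 1 = S'.count z := by
    conv_rhs => rw [hp'']
    simp; omega
  have hkey : ∀ c ∈ C, p'.count c = s''.count c := by
    intro c hc
    have hcne : c ≠ z := fun h => hz (h ▸ hc)
    have hsub : ({c, z} : Finset ι) ⊆ q.support := by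
      intro i hi
      rcases Finset.mem_insert.mp hi with rfl | hi
      · exact hCq hc
      · rw [Finset.mem_singleton.mp hi, Finsupp.mem_support_iff, clones_z C z hz]
        positivity
    have h2 := (hU q hq {c, z} (by simp) hsub S' hS').1
    rw [filter_pair q c z hcne, clones_mem C z hz a _ c hc, clones_z C z hz] at h2
    have h3 := two_pal hR hcne ha h2
    have e1 : S'.filter (· ∈ ({c, z} : Finset ι)) =
        p'.filter (· ∈ ({c, z} : Finset ι)) ++ z :: s'.filter (· ∈ ({c, z} : Finset ι)) := by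
      rw [hp']; simp
    have e2 : (S'.filter (· ∈ ({c, z} : Finset ι))).reverse =
        (s''.filter (· ∈ ({c, z} : Finset ι))).reverse ++
          z :: (p''.filter (· ∈ ({c, z} : Finset ι))).reverse := by
      rw [hp'']; simp
    rw [h3, e1] at e2
    have e3 := split_unique z _ _ _ _ e2 (by
      rw [List.count_reverse, List.count_filter (by simp), List.count_filter (by simp)]; omega)
    have e4 := congrArg (List.count c) e3
    rwa [List.count_reverse, List.count_filter (by simp), List.count_filter (by simp)] at e4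
  have hperm : (p'.filter (· ∈ C)).Perm (s''.filter (· ∈ C)) := by
    rw [List.perm_iff_count]
    intro i
    by_cases hi : i ∈ C
    · rw [List.count_filter (by simp [hi]), List.count_filter (by simp [hi]), hkey i hi]
    · rw [List.count_eq_zero_of_not_mem (by simp [hi]),
        List.count_eq_zero_of_not_mem (by simp [hi])]
  rcases π with _ | ⟨f, π⟩
  · have := hπc c0
    rw [hone_ap] at this
    simp [hc0] at this
  have hf : f ∈ C := by
    have := hπc f
    rw [hone_ap] at this
    by_contra hc
    simp [hc] at this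
  have hf1 : (f :: π).count f = 1 := by rw [hπc f, hone_ap, if_pos hf]
  change S'.filter (· ∈ C) = pw (f :: π) a at hfilt
  have g1 : pw (f :: π) a = p'.filter (· ∈ C) ++ s'.filter (· ∈ C) := by
    rw [← hfilt, hp']; simp [hz]
  have g2 : pw (f :: π) a = p''.filter (· ∈ C) ++ s''.filter (· ∈ C) := by
    rw [← hfilt, hp'']; simp [hz]
  have b1 := prefix_len_le f π a _ _ g1
  have b2 := prefix_len_le f π a _ _ g2
  have l2 := congrArg List.length g2
  have c2 := congrArg (List.count f) g2
  rw [length_pw, List.length_append] at l2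
  rw [count_pw, List.count_append, hf1] at c2
  have l3 := hperm.length_eq
  have c3 := hperm.count_eq f
  rw [← hπlen]
  simp only [List.length_cons] at l2 ⊢
  refine ⟨(p'.filter (· ∈ C)).count f, le_antisymm b1 ?_⟩
  rw [c3, l3]
  nlinarith

lemma rigid [Infinite ι] (hM : IsMethod F) (hP : IsPeriodic F) (hU : IsUniform F)
    (hR : IsReflectiveOffTies F) {x z : ι} (hxz : x ≠ z) {a r : ℕ} (ha : 0 < a) (hr : 0 < r)
    {w1 w2 : List ι} (h1 : w1 ∈ F (two x z a (2 * r * a))) (h2 : w2 ∈ F (two x z a (2 * r * a)))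
    (p1 s1 p2 s2 : List ι) (e1 : w1 = p1 ++ z :: s1) (e2 : w2 = p2 ++ z :: s2)
    (hl : p1.length = p2.length) : p1.count x = p2.count x := by
  obtain ⟨t, ht, htc⟩ := Infinite.exists_superset_card_eq ({x, z} : Finset ι) (a + 2)
    (by rw [Finset.card_pair hxz]; omega)
  set C := t.erase z with hC
  have hzt : z ∈ t := ht (by simp)
  have hCc : C.card = a + 1 := by rw [hC, Finset.card_erase_of_mem hzt, htc]; rfl
  have hxC : x ∈ C := Finset.mem_erase.mpr ⟨hxz, ht (by simp)⟩
  have hzC : z ∉ C := Finset.notMem_erase z t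
  set q := clones C z a (2 * r * a) with hqdef
  have hqx : q x = a := clones_mem C z hzC a _ x hxC
  have hqz : q z = 2 * r * a := clones_z C z hzC a _
  have hq : q ≠ 0 := by
    intro h
    rw [h] at hqx
    simp at hqx; omega
  have hsub : ({x, z} : Finset ι) ⊆ q.support := by
    intro i hi
    rcases Finset.mem_insert.mp hi with rfl | hi
    · rw [Finsupp.mem_support_iff, hqx]; omega
    · rw [Finset.mem_singleton.mp hi, Finsupp.mem_support_iff, hqz]
      positivity
  obtain ⟨S, hS⟩ := (hM q hq).1
  have hfil := filter_pair q x z hxz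
  rw [hqx, hqz] at hfil
  have main : ∀ (w p s : List ι), w ∈ F (two x z a (2 * r * a)) → w = p ++ z :: s →
      ∃ (P : List ι) (R : List Bool), S.map (fun b => decide (b ∈ ({x, z} : Finset ι))) =
        P.map (fun b => decide (b ∈ ({x, z} : Finset ι))) ++ true :: R ∧
        (P.map (fun b => decide (b ∈ ({x, z} : Finset ι)))).count true = p.length ∧
        ∃ n, (a + 1) ∣ n ∧ n + p.length = P.length + p.count x ∧ p.count x ≤ a := by
    intro w p s hw e
    obtain ⟨S', hS', hF, hfilt⟩ := exists_rewrite_mem hM hU hq {x, z} (by simp) hsub hS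
      (hfil ▸ hw)
    obtain ⟨P, R, hPR, hPp, -⟩ := filter_split _ S' p s z (hfilt.trans e)
    refine ⟨P, R.map (fun b => decide (b ∈ ({x, z} : Finset ι))), ?_, ?_,
      (P.filter (· ∈ C)).length, ?_, ?_, ?_⟩
    · rw [mask_eq _ S S' hF, hPR]; simp
    · rw [count_true_mask, hPp]
    · rw [← hCc]
      exact clones_dvd hM hP hU hR C ⟨x, hxC⟩ z hzC ha hr hS' P R hPR
    · have hpm : ∀ b ∈ p, b = x ∨ b = z := fun b hb =>
        mem_two hM hxz ha hw (by rw [e]; simp [hb])
      rw [length_eq_count_add x z hxz p hpm]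
      have hz1 : p.count z = P.count z := by rw [← hPp, List.count_filter (by simp)]
      have hz2 : P.length = (P.filter (· ∈ C)).length + P.count z := by
        have hPm : ∀ b ∈ P, b ∈ C ∨ b = z := by
          intro b hb
          have := mem_support_of_mem hM hq hS' (a := b) (by rw [hPR]; simp [hb])
          by_contra hc
          push Not at hc
          rw [Finsupp.mem_support_iff, clones_other C z a _ b hc.1 hc.2] at this
          exact this rfl
        clear hPR hPp hz1
        induction P with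
        | nil => rfl
        | cons b P ih =>
          have := ih (fun c hc => hPm c (List.mem_cons_of_mem _ hc))
          rcases hPm b List.mem_cons_self with hb | rfl
          · have hbz : b ≠ z := fun h => hzC (h ▸ hb)
            simp [hb, hbz, this]; omega
          · simp [hzC, this]; omega
      omega
    · have := (hM _ (two_ne_zero x z hxz a _ ha)).2 w hw x
      rw [two_left _ _ hxz, e, List.count_append] at this
      omega
  obtain ⟨P1, R1, a1, b1, n1, d1, f1, g1⟩ := main w1 p1 s1 h1 e1
  obtain ⟨P2, R2, a2, b2, n2, d2, f2, g2⟩ := main w2 p2 s2 h2 e2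
  have hPP := split_unique true _ _ _ _ (a1.symm.trans a2) (by rw [b1, b2, hl])
  have hPl := congrArg List.length hPP
  simp only [List.length_map] at hPl
  rcases le_total (p1.count x) (p2.count x) with h | h
  · have : (a + 1) ∣ p2.count x - p1.count x := by
      have := Nat.dvd_sub d2 d1
      rwa [show n2 - n1 = p2.count x - p1.count x by omega] at this
    have := Nat.eq_zero_of_dvd_of_lt this (by omega)
    omega
  · have : (a + 1) ∣ p1.count x - p2.count x := by
      have := Nat.dvd_sub d1 d2
      rwa [show n1 - n2 = p1.count x - p2.count x by omega] at this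
    have := Nat.eq_zero_of_dvd_of_lt this (by omega)
    omega

lemma good_of_two [Infinite ι] (hM : IsMethod F) (hP : IsPeriodic F) (hU : IsUniform F)
    (hR : IsReflectiveOffTies F) {x z : ι} (hxz : x ≠ z) {a r : ℕ} (ha : 0 < a) (hr : a < r)
    {w : List ι} (hw : w ∈ F (two x z a (2 * r * a))) (g : ℕ) (hg : g + 1 < 2 * r * a) :
    ∃ u v, w = u ++ z :: v ∧ g ≤ u.count z ∧ u.count z ≤ g + 1 ∧
      2 * u.count x * r ≤ u.count z + r ∧ u.count z ≤ (2 * u.count x + 1) * r := by
  have hq := two_ne_zero x z hxz a (2 * r * a) ha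
  have hcx := (hM _ hq).2 w hw x
  have hcz := (hM _ hq).2 w hw z
  rw [two_left _ _ hxz] at hcx
  rw [two_right _ _ hxz] at hcz
  have hwl : w.length = (2 * r + 1) * a := by
    rw [length_eq_count_add x z hxz w (fun b hb => mem_two hM hxz ha hw hb), hcx, hcz]; ring
  have hlen : ∀ u v, w = u ++ z :: v → u.length = u.count x + u.count z := fun u v e =>
    length_eq_count_add x z hxz u (fun b hb => mem_two hM hxz ha hw (by rw [e]; simp [hb]))
  have good : ∀ u v, w = u ++ z :: v → u.length % (2 * r + 1) ≠ r →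
      2 * u.count x * r ≤ u.count z + r ∧ u.count z ≤ (2 * u.count x + 1) * r := by
    intro u v e hne
    have ht : u.length < (2 * r + 1) * a := by
      rw [← hwl, e]; simp
    obtain ⟨u', v', e', hl', b1, b2⟩ := ref_word x z hxz r a u.length ht hne
    have href := ref_mem hM hP hR hxz r ha
    have hx := rigid hM hP hU hR hxz ha (by omega) hw href u v u' v' e e' hl'.symm
    have hl2 : u'.length = u'.count x + u'.count z :=
      length_eq_count_add x z hxz u' (fun b hb => mem_two hM hxz ha href (by rw [e']; simp [hb]))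
    have hl1 := hlen u v e
    have hz : u.count z = u'.count z := by omega
    rw [hx, hz]
    exact ⟨b1, b2⟩
  obtain ⟨u, v, e, hu⟩ := exists_split z w g (by omega)
  obtain ⟨u2, v2, e2, hu2⟩ := exists_split z w (g + 1) (by omega)
  by_cases c1 : u.length % (2 * r + 1) = r
  · by_cases c2 : u2.length % (2 * r + 1) = r
    · exfalso
      have k1 := count_le_of_split x z u v u2 (z :: v2) (e.symm.trans e2) (by omega)
      have k2 : u2.count x ≤ a := by
        rw [← hcx, e2, List.count_append]; omega
      have l1 := hlen u v e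
      have l2 := hlen u2 v2 e2
      have hd : (2 * r + 1) ∣ u2.length - u.length :=
        (Nat.modEq_iff_dvd' (by omega)).mp (c1.trans c2.symm)
      have := Nat.eq_zero_of_dvd_of_lt hd (by omega)
      omega
    · obtain ⟨b1, b2⟩ := good u2 v2 e2 c2
      exact ⟨u2, v2, e2, by omega, by omega, b1, b2⟩
  · obtain ⟨b1, b2⟩ := good u v e c1
    exact ⟨u, v, e, by omega, by omega, b1, b2⟩

lemma prefix_bounds [Infinite ι] (hM : IsMethod F) (hP : IsPeriodic F) (hU : IsUniform F)
    (hR : IsReflectiveOffTies F) {x z : ι} (hxz : x ≠ z) {a r : ℕ} (ha : 0 < a) (hr : a < r)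
    {w : List ι} (hw : w ∈ F (two x z a (2 * r * a))) (p s : List ι) (e : w = p ++ s) :
    p.count z ≤ (2 * p.count x + 1) * r + 2 ∧ 2 * p.count x * r ≤ p.count z + 1 + r := by
  have hq := two_ne_zero x z hxz a (2 * r * a) ha
  have hcx := (hM _ hq).2 w hw x
  have hcz := (hM _ hq).2 w hw z
  rw [two_left _ _ hxz, e, List.count_append] at hcx
  rw [two_right _ _ hxz, e, List.count_append] at hcz
  constructor
  · by_cases hg : p.count z < 2
    · omega
    · obtain ⟨u, v, e', b1, b2, -, b4⟩ :=
        good_of_two hM hP hU hR hxz ha hr hw (p.count z - 2) (by omega)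
      have k := count_le_of_split x z u v p s (e'.symm.trans e) (by omega)
      have : (2 * u.count x + 1) * r ≤ (2 * p.count x + 1) * r :=
        Nat.mul_le_mul_right _ (by omega)
      omega
  · by_cases hg : p.count z + 1 < 2 * r * a
    · obtain ⟨u, v, e', b1, b2, b3, -⟩ := good_of_two hM hP hU hR hxz ha hr hw (p.count z) hg
      have k := count_ge_of_split x z u v p s (e'.symm.trans e) b1
      have : 2 * p.count x * r ≤ 2 * u.count x * r := Nat.mul_le_mul_right _ (by omega)
      omega
    · have : 2 * p.count x * r ≤ 2 * a * r := Nat.mul_le_mul_right _ (by omega)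
      have h2 : 2 * a * r = 2 * r * a := by ring
      omega

theorem webster_of_mem [Infinite ι] (hM : IsMethod F) (hP : IsPeriodic F) (hU : IsUniform F)
    (hR : IsReflectiveOffTies F) {q : ι →₀ ℕ} (hq : q ≠ 0) {T : List ι} (hT : T ∈ F q)
    (p s : List ι) (y : ι) (e : T = p ++ y :: s) (x : ι) :
    (2 * p.count y + 1) * q x ≤ (2 * p.count x + 1) * q y := by
  by_cases hxy : x = y
  · rw [hxy]
  rcases Nat.eq_zero_or_pos (q x) with hx | hx
  · rw [hx]; simp
  have hyq : y ∈ q.support := mem_support_of_mem hM hq hT (by rw [e]; simp)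
  have hy : 0 < q y := Nat.pos_of_ne_zero (Finsupp.mem_support_iff.mp hyq)
  have hxq : x ∈ q.support := Finsupp.mem_support_iff.mpr hx.ne'
  obtain ⟨z, hz⟩ := Infinite.exists_notMem_finset q.support
  have hz0 : q z = 0 := Finsupp.notMem_support_iff.mp hz
  have hxz : x ≠ z := fun h => hz (h ▸ hxq)
  have hyz : y ≠ z := fun h => hz (h ▸ hyq)
  set L := q x + q y + 4 with hL
  set q' : ι →₀ ℕ := q + Finsupp.single z (2 * q x * q y * L) with hq'def
  have hq'ne : ∀ i, i ≠ z → q' i = q i := by
    intro i hi; simp [hq'def, hi]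
  have hq'z : q' z = 2 * q x * q y * L := by simp [hq'def, hz0]
  have hq' : q' ≠ 0 := by
    intro h
    have := hq'ne x hxz
    rw [h] at this
    simp at this; omega
  have hsub : q.support ⊆ q'.support := by
    intro i hi
    rw [Finsupp.mem_support_iff, hq'ne i (fun h => hz (h ▸ hi))]
    exact Finsupp.mem_support_iff.mp hi
  have hfil : q'.filter (· ∈ q.support) = q := by
    ext i
    rw [Finsupp.filter_apply]
    by_cases hi : i ∈ q.support
    · rw [if_pos hi, hq'ne i (fun h => hz (h ▸ hi))]
    · rw [if_neg hi, Finsupp.notMem_support_iff.mp hi]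
  obtain ⟨S, hS⟩ := (hM q' hq').1
  obtain ⟨S', hS', -, hfilt⟩ := exists_rewrite_mem hM hU hq' q.support ⟨x, hxq⟩ hsub hS
    (hfil.symm ▸ hT)
  obtain ⟨P, R, hPR, hPp, -⟩ := filter_split _ S' p s y (hfilt.trans e)
  have hpair : ∀ c ∈ q.support, S'.filter (· ∈ ({c, z} : Finset ι)) ∈
      F (two c z (q c) (2 * q x * q y * L)) := by
    intro c hc
    have hcz : c ≠ z := fun h => hz (h ▸ hc)
    have hs : ({c, z} : Finset ι) ⊆ q'.support := by
      intro i hi
      rcases Finset.mem_insert.mp hi with rfl | hi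
      · exact hsub hc
      · rw [Finset.mem_singleton.mp hi, Finsupp.mem_support_iff, hq'z]
        positivity
    have h2 := (hU q' hq' {c, z} (by simp) hs S' hS').1
    rwa [filter_pair q' c z hcz, hq'ne c hcz, hq'z] at h2
  have wx := hpair x hxq
  have wy := hpair y hyq
  rw [show 2 * q x * q y * L = 2 * (q y * L) * q x by ring] at wx
  rw [show 2 * q x * q y * L = 2 * (q x * L) * q y by ring] at wy
  have bx := (prefix_bounds hM hP hU hR hxz hx (by nlinarith) wx
    (P.filter (· ∈ ({x, z} : Finset ι))) ((y :: R).filter (· ∈ ({x, z} : Finset ι)))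
    (by rw [hPR, List.filter_append])).1
  have byy := (prefix_bounds hM hP hU hR hyz hy (by nlinarith) wy
    ((P ++ [y]).filter (· ∈ ({y, z} : Finset ι))) (R.filter (· ∈ ({y, z} : Finset ι)))
    (by rw [hPR, ← List.filter_append]; simp)).2
  rw [List.count_filter (by simp), List.count_filter (by simp)] at bx byy
  have hx1 : P.count x = p.count x := by rw [← hPp, List.count_filter (by simpa using hx.ne')]
  have hy1 : P.count y = p.count y := by rw [← hPp, List.count_filter (by simpa using hy.ne')]
  simp only [List.count_append, List.count_singleton_self, List.count_singleton,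
    beq_iff_eq, hyz, if_false, add_zero] at byy
  rw [hx1] at bx
  rw [hy1] at byy
  by_contra hc
  push Not at hc
  have h5 : ((2 * p.count x + 1) * q y + 1) * L ≤ (2 * p.count y + 1) * q x * L :=
    Nat.mul_le_mul_right _ hc
  nlinarith

end

end Pool.Agent.P.MP_d7fca3_co
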